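import Mathlib

/-!
# Integers that are sums of two units: definitions for the effective theorem
-/

set_option autoImplicit false

open NumberField Polynomial Module IntermediateField
open scoped TensorProduct

namespace Pool.Agent.Helper13.TU

/-- the positive integers that are sums of two units of the ring of integers of `K` -/
def NSet (K : Type*) [Field K] : Set ℕ :=
  {n | 1 ≤ n ∧ ∃ ε δ : (𝓞 K)ˣ, ((ε : 𝓞 K) : K) + ((δ : 𝓞 K) : K) = (n : K)}

/-- the monic integer polynomial `X ^ d + c_{d-1} X ^ (d-1) + … + c_0` coded by the list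
`c = [c_0, …, c_{d-1}]` -/
noncomputable def polyOf (c : List ℤ) : ℤ[X] :=
  X ^ c.length + ∑ i ∈ Finset.range c.length, C (c.getD i 0) * X ^ i

/-- the algebra `ℚ[x]/(f)` with `f = polyOf c` -/
abbrev fieldOf (c : List ℤ) : Type := AdjoinRoot ((polyOf c).map (Int.castRingHom ℚ))

/-- a representation `ε + δ = n` is special if `δ` is the image of `ε` under an automorphism of
order two of the field `ℚ(ε)`, and `ℚ(ε)` has a real embedding -/
def Special {K : Type*} [Field K] [CharZero K] (ε δ : K) : Prop :=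
  ∃ τ : ℚ⟮ε⟯ ≃ₐ[ℚ] ℚ⟮ε⟯, τ ≠ 1 ∧ τ * τ = 1 ∧
    ((τ (AdjoinSimple.gen ℚ ε) : ℚ⟮ε⟯) : K) = δ ∧ Nonempty (ℚ⟮ε⟯ →+* ℝ)

/-! ### explicit constants -/

/-- constant of the Minkowski type lemma -/
def cM (d R : ℕ) : ℕ := 8 * d * R ^ d

/-- number of cells in the box principle for units -/
def cellBd (d R q : ℕ) : ℕ :=
  (cM d R ^ d + 1) ^ (2 * (d + 1)) * (4 * (d * cM d R + 1) * q) ^ (2 * d) * (8 * q)

/-- `c_D` -/
def cD (D : ℕ) : ℕ := 2 ^ 14 * (D + 1) ^ 3 * (8 * D + 9)

/-- the parameter `p` as a function of the degree -/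
def pOf (d : ℕ) : ℕ := 64 + 16 * d

/-- threshold in the lower bound for `|γ - 1|` -/
def B0 (d R p : ℕ) : ℕ := 8 * (cellBd d R (2 ^ p)) ^ 2 * 2 ^ p

/-! ### number fields with a bounded integral generator -/

/-- an integral generator of `K` all of whose conjugates are bounded by `R` -/
structure Prim (K : Type*) [Field K] [NumberField K] (R : ℕ) where
  θ : 𝓞 K
  gen : IntermediateField.adjoin ℚ {(θ : K)} = ⊤
  one_le : 1 ≤ R
  bd : ∀ σ : K →+* ℂ, ‖σ (θ : K)‖ ≤ R

variable {K : Type*} [Field K] [NumberField K]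

/-- the element `∑ b_k θ^k` -/
noncomputable def elemOf {R : ℕ} (P : Prim K R) (b : Fin (finrank ℚ K) → ℤ) : 𝓞 K :=
  ∑ k, (b k : 𝓞 K) * P.θ ^ (k : ℕ)

/-- the ring homomorphism `a ⊗ b ↦ σ a * τ b` -/
noncomputable def phi (σ τ : K →+* ℂ) : 𝓞 K ⊗[ℤ] 𝓞 K →+* ℂ :=
  (Algebra.TensorProduct.lift
    ((σ.comp (algebraMap (𝓞 K) K)).toIntAlgHom) ((τ.comp (algebraMap (𝓞 K) K)).toIntAlgHom)
    (fun _ _ => Commute.all _ _)).toRingHom

omit [NumberField K] in
theorem phi_tmul (σ τ : K →+* ℂ) (a b : 𝓞 K) : phi σ τ (a ⊗ₜ b) = σ (a : K) * τ (b : K) := by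
  simp [phi]

/-! ### arithmetic modulo `f` on lists of integers -/

/-- coordinatewise sum, `d` coordinates -/
def addL (d : ℕ) (a b : List ℤ) : List ℤ := (List.range d).map fun (i : ℕ) => a.getD i 0 + b.getD i 0

/-- integer multiple, `d` coordinates -/
def smulL (d : ℕ) (t : ℤ) (a : List ℤ) : List ℤ := (List.range d).map fun (i : ℕ) => t * a.getD i 0

/-- multiplication by `θ` -/
def shiftL (c a : List ℤ) : List ℤ := (List.range c.length).map fun (i : ℕ) =>
  (if i = 0 then 0 else a.getD (i - 1) 0) - a.getD (c.length - 1) 0 * c.getD i 0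

/-- product modulo `f` -/
def mulL (c a b : List ℤ) : List ℤ :=
  a.foldr (fun t acc => addL c.length (smulL c.length t b) (shiftL c acc)) []

/-- coordinates of `f'(θ)` -/
def derivL (c : List ℤ) : List ℤ := (List.range c.length).map fun (i : ℕ) =>
  ((i : ℤ) + 1) * (if i + 1 = c.length then 1 else c.getD (i + 1) 0)

/-- coordinates of `g^d + ∑_{k<d} P_k g^k D^(d-k)` where `d = P.length` -/
def homL (c g D P : List ℤ) : List ℤ :=
  (P.foldr (fun t s => (addL c.length (mulL c s.1 g) (smulL c.length t (mulL c s.2 D)),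
    mulL c s.2 D)) (([1], [1]) : List ℤ × List ℤ)).1

/-- all lists of length `k` with entries in `[-H, H]` -/
def boxes (k H : ℕ) : List (List ℤ) :=
  Nat.rec [[]] (fun _ L => L.flatMap fun l => (List.range (2 * H + 1)).map fun t =>
    ((t : ℤ) - (H : ℤ)) :: l) k

/-- the test for `n` to be a sum of two units: `g` are the coordinates of `f'(θ) ε`, `P` and `Q`
the coefficients of monic integral polynomials with constant term `±1` that kill `ε`, `n - ε` -/
def testL (c : List ℤ) (G H n : ℕ) : Bool :=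
  (boxes c.length G).any fun g => (boxes c.length H).any fun P => (boxes c.length H).any fun Q =>
    ((P.getD 0 0).natAbs == 1) && ((Q.getD 0 0).natAbs == 1) &&
    (homL c g (derivL c) P).all (· == 0) &&
    (homL c (addL c.length (smulL c.length n (derivL c)) (smulL c.length (-1) g))
      (derivL c) Q).all (· == 0)

/-- bound for the roots of `polyOf c` -/
def RL (c : List ℤ) : ℕ := 1 + (c.map Int.natAbs).sum

/-- bound for the conjugates of the non-special solutions -/
def TL (c : List ℤ) : ℕ := 3 ^ B0 c.length (RL c) (pOf c.length)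

/-- the algorithm -/
def algo (c : List ℤ) : List ℕ :=
  (List.range (2 * TL c + 1)).filter fun n =>
    decide (1 ≤ n) && testL c (c.length * TL c * RL c ^ (c.length + 1)) ((2 * TL c) ^ c.length) n

end Pool.Agent.Helper13.TU
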