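import Mathlib
import Pool.Agent.Helper13.TU.Defs

/-!
# TU-1: small values of real linear forms and elements with prescribed conjugates
-/

set_option autoImplicit false

open NumberField Polynomial Module IntermediateField Metric

namespace Pool.Agent.Helper13.TU

theorem exists_small_forms {ι κ : Type*} [Fintype ι] [Fintype κ] [Nonempty ι]
    (hcard : Fintype.card κ = Fintype.card ι) (φ : ι → κ → ℝ) (A : ℝ) (hA : 0 < A)
    (hφ : ∀ i j, |φ i j| ≤ A) (lam : ι → ℝ) (hpos : ∀ i, 0 < lam i) (hprod : 1 ≤ ∏ i, lam i) :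
    ∃ b : κ → ℤ, b ≠ 0 ∧ ∀ i, |∑ j, φ i j * b j| ≤ 4 * Fintype.card ι * A * lam i := by
  classical
  set n := Fintype.card ι with hn
  have hn1 : 1 ≤ n := Fintype.card_pos
  have hn1' : (1 : ℝ) ≤ n := by exact_mod_cast hn1
  obtain ⟨P, hP1, hP⟩ : ∃ P : ℕ, 1 ≤ P ∧ ∀ i, 2 * lam i ≤ P := by
    obtain ⟨P, hP⟩ := exists_nat_ge (1 + ∑ i, 2 * lam i)
    have hs : 0 ≤ ∑ i, 2 * lam i := Finset.sum_nonneg fun i _ => by have := hpos i; positivity
    refine ⟨P, ?_, fun i => ?_⟩
    · have : (1 : ℝ) ≤ P := by linarith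
      exact_mod_cast this
    · have h1 : 2 * lam i ≤ ∑ i, 2 * lam i :=
        Finset.single_le_sum (f := fun i => 2 * lam i)
          (fun j _ => by have := hpos j; positivity) (Finset.mem_univ i)
      linarith
  have hP1' : (1 : ℝ) ≤ P := by exact_mod_cast hP1
  set s : ι → ℝ := fun i => 4 * n * A * lam i with hs
  have hspos : ∀ i, 0 < s i := fun i => by
    have := hpos i
    simp only [hs]
    positivity
  set M : ℝ := n * A * P with hM
  have hMpos : 0 < M := by rw [hM]; positivity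
  set N : ι → ℕ := fun i => ⌊2 * M / s i⌋₊ + 1 with hN
  set g : (κ → Fin (P + 1)) → ι → ℝ := fun b i => ∑ j, φ i j * ((b j : ℕ) : ℝ) with hg
  have hgb : ∀ b i, |g b i| ≤ M := by
    intro b i
    calc |g b i| ≤ ∑ j, |φ i j * ((b j : ℕ) : ℝ)| := Finset.abs_sum_le_sum_abs _ _
      _ ≤ ∑ _j : κ, A * P := by
          refine Finset.sum_le_sum fun j _ => ?_
          rw [abs_mul, Nat.abs_cast]
          have h1 : ((b j : ℕ) : ℝ) ≤ P := by
            exact_mod_cast Nat.lt_succ_iff.1 (b j).2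
          exact mul_le_mul (hφ i j) h1 (Nat.cast_nonneg _) hA.le
      _ = M := by
          rw [Finset.sum_const, Finset.card_univ, hcard, nsmul_eq_mul, hM]
          ring
  have hx0 : ∀ b i, 0 ≤ (g b i + M) / s i := fun b i => by
    have := neg_abs_le (g b i)
    have := hgb b i
    exact div_nonneg (by linarith) (hspos i).le
  set c : (κ → Fin (P + 1)) → ∀ i, Fin (N i) := fun b i =>
    ⟨⌊(g b i + M) / s i⌋₊, by
      simp only [hN]
      refine Nat.lt_succ_of_le (Nat.floor_le_floor ?_)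
      have := le_abs_self (g b i)
      have := hgb b i
      exact div_le_div_of_nonneg_right (by linarith) (hspos i).le⟩ with hc
  have hcards : Fintype.card (∀ i, Fin (N i)) < Fintype.card (κ → Fin (P + 1)) := by
    rw [Fintype.card_pi, Fintype.card_fun, Fintype.card_fin, hcard]
    simp only [Fintype.card_fin]
    have h1 : ∀ i, ((N i : ℕ) : ℝ) ≤ P / lam i := by
      intro i
      have h2 : (2 * M) / s i = P / (2 * lam i) := by
        simp only [hs, hM]
        have := hpos i
        field_simp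
        ring
      have h3 : 1 ≤ P / (2 * lam i) := by
        rw [le_div_iff₀ (by have := hpos i; positivity), one_mul]
        exact hP i
      have h4 : ((N i : ℕ) : ℝ) ≤ P / (2 * lam i) + 1 := by
        simp only [hN, Nat.cast_add, Nat.cast_one]
        rw [← h2]
        have := Nat.floor_le (a := 2 * M / s i)
          (div_nonneg (by linarith) (hspos i).le)
        linarith
      have h5 : (P : ℝ) / lam i = P / (2 * lam i) + P / (2 * lam i) := by
        have := hpos i
        field_simp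
        ring
      rw [h5]
      linarith
    have h2 : ((∏ i, N i : ℕ) : ℝ) ≤ (P : ℝ) ^ n := by
      rw [Nat.cast_prod]
      calc ∏ i, ((N i : ℕ) : ℝ) ≤ ∏ i, (P : ℝ) / lam i :=
            Finset.prod_le_prod (fun i _ => Nat.cast_nonneg _) fun i _ => h1 i
        _ = (P : ℝ) ^ n / ∏ i, lam i := by
            rw [Finset.prod_div_distrib, Finset.prod_const, Finset.card_univ]
        _ ≤ (P : ℝ) ^ n := div_le_self (by positivity) hprod
    have h3 : (P : ℝ) ^ n < ((P + 1 : ℕ) : ℝ) ^ n := by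
      refine pow_lt_pow_left₀ ?_ (by positivity) (by omega)
      push_cast
      linarith
    have h4 : ((∏ i, N i : ℕ) : ℝ) < (((P + 1) ^ n : ℕ) : ℝ) := by
      rw [Nat.cast_pow]
      exact lt_of_le_of_lt h2 h3
    exact_mod_cast h4
  obtain ⟨b, b', hne, heq⟩ := Fintype.exists_ne_map_eq_of_card_lt c hcards
  refine ⟨fun j => ((b j : ℕ) : ℤ) - ((b' j : ℕ) : ℤ), ?_, fun i => ?_⟩
  · intro h
    apply hne
    funext j
    have h1 := congrFun h j
    simp only [Pi.zero_apply, sub_eq_zero] at h1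
    exact Fin.ext (by exact_mod_cast h1)
  · have h1 : ∑ j, φ i j * (((((b j : ℕ) : ℤ) - ((b' j : ℕ) : ℤ) : ℤ)) : ℝ) = g b i - g b' i := by
      simp only [hg]
      rw [← Finset.sum_sub_distrib]
      refine Finset.sum_congr rfl fun j _ => ?_
      push_cast
      ring
    rw [h1]
    have h2 : ⌊(g b i + M) / s i⌋₊ = ⌊(g b' i + M) / s i⌋₊ := by
      have := congrFun heq i
      simpa only [hc, Fin.mk.injEq] using this
    have h3 := Nat.floor_le (hx0 b i)
    have h4 := Nat.lt_floor_add_one ((g b i + M) / s i)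
    have h5 := Nat.floor_le (hx0 b' i)
    have h6 := Nat.lt_floor_add_one ((g b' i + M) / s i)
    rw [h2] at h3 h4
    have h7 : |(g b i - g b' i) / s i| ≤ 1 := by
      have h8 : (g b i - g b' i) / s i = (g b i + M) / s i - (g b' i + M) / s i := by ring
      rw [h8, abs_le]
      constructor <;> linarith
    rw [abs_div, abs_of_pos (hspos i), div_le_one (hspos i)] at h7
    exact h7

section
variable {K : Type*} [Field K] [NumberField K]

theorem exists_elem {R : ℕ} (P : Prim K R) (v : (K →+* ℂ) → ℝ)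
    (hconj : ∀ σ, v (ComplexEmbedding.conjugate σ) = v σ) (hsum : ∑ σ, v σ = 0) :
    ∃ b : Fin (finrank ℚ K) → ℤ, elemOf P b ≠ 0 ∧
      ∀ σ : K →+* ℂ, ‖σ (elemOf P b : K)‖ ≤ cM (finrank ℚ K) R * Real.exp (v σ) := by
  classical
  set d := finrank ℚ K with hd
  have hR : (1 : ℝ) ≤ R := by exact_mod_cast P.one_le
  set φ : (K →+* ℂ) → Fin d → ℝ := fun σ k =>
    ((σ (P.θ : K)) ^ (k : ℕ)).re + ((σ (P.θ : K)) ^ (k : ℕ)).im with hφ
  have hpow : ∀ (σ : K →+* ℂ) (k : Fin d), ‖(σ (P.θ : K)) ^ (k : ℕ)‖ ≤ (R : ℝ) ^ d := by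
    intro σ k
    rw [norm_pow]
    exact (pow_le_pow_left₀ (norm_nonneg _) (P.bd σ) _).trans
      (pow_le_pow_right₀ hR k.2.le)
  have hcardE : Fintype.card (K →+* ℂ) = d := NumberField.Embeddings.card K ℂ
  have hdpos : 0 < d := finrank_pos
  haveI : Nonempty (K →+* ℂ) := Fintype.card_pos_iff.1 (by rw [hcardE]; exact hdpos)
  obtain ⟨b, hb0, hb⟩ := exists_small_forms (ι := K →+* ℂ) (κ := Fin d)
    (by rw [Fintype.card_fin, hcardE]) φ (2 * (R : ℝ) ^ d) (by positivity)
    (fun σ k => by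
      simp only [hφ]
      have h1 := Complex.abs_re_le_norm ((σ (P.θ : K)) ^ (k : ℕ))
      have h2 := Complex.abs_im_le_norm ((σ (P.θ : K)) ^ (k : ℕ))
      have h3 := hpow σ k
      refine (abs_add_le _ _).trans ?_
      linarith)
    (fun σ => Real.exp (v σ)) (fun σ => Real.exp_pos _)
    (by rw [← Real.exp_sum, hsum, Real.exp_zero])
  have hcoe : ((elemOf P b : 𝓞 K) : K) = ∑ k : Fin d, ((b k : ℤ) : K) * (P.θ : K) ^ (k : ℕ) := by
    show algebraMap (𝓞 K) K (∑ k, (b k : 𝓞 K) * P.θ ^ (k : ℕ)) = _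
    rw [map_sum]
    refine Finset.sum_congr rfl fun k _ => ?_
    rw [map_mul, map_pow, map_intCast]
  refine ⟨b, ?_, fun σ => ?_⟩
  · -- nonzero
    intro h0
    apply hb0
    have hdeg : (minpoly ℚ (P.θ : K)).natDegree = d := by
      have h1 : IsIntegral ℚ (P.θ : K) := Algebra.IsIntegral.isIntegral _
      rw [← IntermediateField.adjoin.finrank h1, P.gen, IntermediateField.finrank_top']
    have hli := linearIndependent_pow (K := ℚ) (P.θ : K)
    rw [Fintype.linearIndependent_iff] at hli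
    have hz : ∑ i : Fin (minpoly ℚ (P.θ : K)).natDegree,
        ((b (Fin.cast hdeg i) : ℤ) : ℚ) • (P.θ : K) ^ (i : ℕ) = 0 := by
      have h1 : ((elemOf P b : 𝓞 K) : K) = ∑ k : Fin d, ((b k : ℤ) : ℚ) • (P.θ : K) ^ (k : ℕ) := by
        rw [hcoe]
        refine Finset.sum_congr rfl fun k _ => ?_
        rw [Algebra.smul_def]
        simp
      rw [h0] at h1
      rw [← (finCongr hdeg).sum_comp (fun k : Fin d => ((b k : ℤ) : ℚ) • (P.θ : K) ^ (k : ℕ))]
        at h1
      simpa using h1.symm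
    funext k
    have h2 := hli _ hz (Fin.cast hdeg.symm k)
    simpa using h2
  · -- size
    have hσ : ∀ τ : K →+* ℂ, τ ((elemOf P b : 𝓞 K) : K) =
        ∑ k : Fin d, ((b k : ℤ) : ℂ) * (τ (P.θ : K)) ^ (k : ℕ) := by
      intro τ
      rw [hcoe, map_sum]
      refine Finset.sum_congr rfl fun k _ => ?_
      rw [map_mul, map_pow, map_intCast]
    have hform : ∀ τ : K →+* ℂ, ∑ k, φ τ k * b k =
        (τ ((elemOf P b : 𝓞 K) : K)).re + (τ ((elemOf P b : 𝓞 K) : K)).im := by
      intro τ
      rw [hσ τ, Complex.re_sum, Complex.im_sum, ← Finset.sum_add_distrib]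
      refine Finset.sum_congr rfl fun k _ => ?_
      simp only [hφ, Complex.mul_re, Complex.mul_im, Complex.intCast_re, Complex.intCast_im]
      ring
    set z := σ ((elemOf P b : 𝓞 K) : K) with hz
    have h1 := hb σ
    have h2 := hb (ComplexEmbedding.conjugate σ)
    rw [hform] at h1 h2
    have h3 : (ComplexEmbedding.conjugate σ) ((elemOf P b : 𝓞 K) : K) = (starRingEnd ℂ) z := by
      rw [hz]
      rfl
    rw [h3, Complex.conj_re, Complex.conj_im] at h2
    simp only [hconj, ← hz] at h1 h2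
    rw [hcardE] at h1 h2
    have h4 : ‖z‖ ≤ |z.re| + |z.im| := Complex.norm_le_abs_re_add_abs_im z
    have h5 : |z.re| + |z.im| ≤ 4 * d * (2 * (R : ℝ) ^ d) * Real.exp (v σ) := by
      rw [abs_le] at h1 h2
      rcases abs_cases z.re with h | h <;> rcases abs_cases z.im with h' | h' <;>
        linarith [h1.1, h1.2, h2.1, h2.2]
    have h6 : (4 * d * (2 * (R : ℝ) ^ d) * Real.exp (v σ) : ℝ) =
        ((cM d R : ℕ) : ℝ) * Real.exp (v σ) := by
      simp only [cM]
      push_cast
      ring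
    linarith

end

end Pool.Agent.Helper13.TU
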