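import Mathlib
import Pool.Agent.Helper13.TU.Defs
import Pool.Agent.Helper81.TU.RealQuad

/-! Fields without bad subfields -/

set_option autoImplicit false

open NumberField Polynomial Module IntermediateField

namespace Pool.Agent.Helper13.TU

/-- `K` has no subfield `F` of even degree at least six that has a real embedding and a
nontrivial automorphism of order two, and has no subfield of degree two -/
def NoBadSubfield (K : Type*) [Field K] [CharZero K] : Prop :=
  ∀ F : IntermediateField ℚ K, Even (finrank ℚ F) → 6 ≤ finrank ℚ F → Nonempty (F →+* ℝ) →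
    (∀ L : IntermediateField ℚ F, finrank ℚ L ≠ 2) → ∀ τ : F ≃ₐ[ℚ] F, τ * τ = 1 → τ = 1

/-- a finite commutative group of even order has a subgroup of index two -/
theorem exists_index_two {G : Type*} [CommGroup G] [Finite G] (h : Even (Nat.card G)) :
    ∃ M : Subgroup G, M.index = 2 := by
  obtain ⟨a, ha⟩ := exists_prime_orderOf_dvd_card' (G := G) 2 h.two_dvd
  have hS : (powMonoidHom 2 : G →* G).range ≠ ⊤ := by
    intro h1
    have h2 : Function.Surjective (powMonoidHom 2 : G →* G) := MonoidHom.range_eq_top.1 h1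
    have h3 : Function.Injective (powMonoidHom 2 : G →* G) := Finite.injective_iff_surjective.2 h2
    have h4 : a = 1 := by
      apply h3
      simp only [powMonoidHom_apply, one_pow]
      rw [← ha]; exact pow_orderOf_eq_one a
    rw [h4, orderOf_one] at ha
    omega
  rcases eq_top_or_exists_le_coatom (powMonoidHom 2 : G →* G).range with h1 | ⟨M, hM, hSM⟩
  · exact absurd h1 hS
  have hsq : ∀ x : G, x * x ∈ M := by
    intro x
    apply hSM
    exact ⟨x, by simp [powMonoidHom_apply, pow_two]⟩
  refine ⟨M, Subgroup.index_eq_two_iff.2 ?_⟩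
  obtain ⟨g, hg⟩ : ∃ g, g ∉ M := by
    by_contra hcon
    push Not at hcon
    exact hM.1 (by ext x; simp [hcon x])
  let N : Subgroup G :=
    { carrier := {x | x ∈ M ∨ x * g ∈ M}
      one_mem' := Or.inl M.one_mem
      mul_mem' := by
        rintro x y (hx | hx) (hy | hy)
        · exact Or.inl (M.mul_mem hx hy)
        · exact Or.inr (by rw [mul_assoc]; exact M.mul_mem hx hy)
        · refine Or.inr ?_
          have : x * y * g = (x * g) * y := by rw [mul_assoc, mul_comm y g, ← mul_assoc]
          rw [this]; exact M.mul_mem hx hy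
        · refine Or.inl ?_
          have : x * y = ((x * g) * (y * g)) * (g * g)⁻¹ := by
            rw [mul_mul_mul_comm x g y g, mul_inv_cancel_right]
          rw [this]
          exact M.mul_mem (M.mul_mem hx hy) (M.inv_mem (hsq g))
      inv_mem' := by
        rintro x (hx | hx)
        · exact Or.inl (M.inv_mem hx)
        · refine Or.inr ?_
          have : x⁻¹ * g = (x * g)⁻¹ * (g * g) := by
            rw [mul_inv, mul_assoc, inv_mul_cancel_left]
          rw [this]
          exact M.mul_mem (M.inv_mem hx) (hsq g) }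
  have hMN : M < N := by
    refine lt_of_le_of_ne (fun x hx => Or.inl hx) ?_
    intro h5
    apply hg
    rw [h5]
    exact Or.inr (hsq g)
  have hN : N = ⊤ := hM.2 N hMN
  refine ⟨g, fun b => ?_⟩
  have hb : b ∈ N := by rw [hN]; trivial
  by_cases hbM : b ∈ M
  · refine Or.inr ⟨hbM, fun h6 => hg ?_⟩
    have : g = b⁻¹ * (b * g) := by rw [inv_mul_cancel_left]
    rw [this]; exact M.mul_mem (M.inv_mem hbM) h6
  · rcases hb with h7 | h7
    · exact absurd h7 hbM
    · exact Or.inl ⟨h7, hbM⟩

section
variable {K : Type*} [Field K] [NumberField K]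

theorem noBad_of_odd (h : Odd (finrank ℚ K)) : NoBadSubfield K := by
  intro F hF
  exfalso
  have h1 : finrank ℚ F ∣ finrank ℚ K := ⟨finrank F K, (finrank_mul_finrank ℚ F K).symm⟩
  obtain ⟨k, hk⟩ := h1
  rw [hk] at h
  exact (Nat.not_even_iff_odd.2 h) (hF.mul_right k)

theorem noBad_of_le_five (h : finrank ℚ K ≤ 5) : NoBadSubfield K := by
  intro F _ h6
  exfalso
  have h1 : finrank ℚ F ≤ finrank ℚ K := by
    rw [← finrank_mul_finrank ℚ F K]
    exact Nat.le_mul_of_pos_right _ finrank_pos
  omega

theorem noBad_of_abelian [IsAbelianGalois ℚ K] : NoBadSubfield K := by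
  intro F hF _ _ hL
  exfalso
  have : IsAbelianGalois ℚ F := IsAbelianGalois.of_algHom F.val
  let _ : CommGroup (F ≃ₐ[ℚ] F) :=
    { (inferInstance : Group (F ≃ₐ[ℚ] F)) with
      mul_comm := fun a b => (IsAbelianGalois.toIsMulCommutative (K := ℚ) (L := F)).is_comm.comm a b }
  have hcard : Nat.card (F ≃ₐ[ℚ] F) = finrank ℚ F := IsGalois.card_aut_eq_finrank ℚ F
  obtain ⟨M, hM⟩ := exists_index_two (G := F ≃ₐ[ℚ] F) (by rw [hcard]; exact hF)
  apply hL (fixedField M)
  have h1 : finrank (fixedField M) F = Nat.card M := finrank_fixedField_eq_card M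
  have h2 : finrank ℚ (fixedField M) * finrank (fixedField M) F = finrank ℚ F :=
    finrank_mul_finrank ℚ (fixedField M) F
  have h3 : Nat.card M * M.index = Nat.card (F ≃ₐ[ℚ] F) := M.card_mul_index
  rw [hM, hcard] at h3
  rw [h1] at h2
  have h4 : 0 < Nat.card M := Nat.card_pos
  have h5 : finrank ℚ (fixedField M) * Nat.card M = 2 * Nat.card M := by
    rw [h2, ← h3, mul_comm]
  exact Nat.eq_of_mul_eq_mul_right h4 h5

theorem noBad_of_simple (h : ∀ F : IntermediateField ℚ K, F = ⊥ ∨ F = ⊤) : NoBadSubfield K := by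
  intro F _ h6 _ _ τ hτ
  by_contra h1
  set H : Subgroup (F ≃ₐ[ℚ] F) := Subgroup.zpowers τ with hH
  have hcard : Nat.card H = 2 := by
    rw [hH, Nat.card_zpowers]
    exact orderOf_eq_prime (by rw [pow_two]; exact hτ) h1
  have hE : finrank (fixedField H) F = 2 := by
    rw [finrank_fixedField_eq_card, hcard]
  have hmul : finrank ℚ (fixedField H) * finrank (fixedField H) F = finrank ℚ F :=
    finrank_mul_finrank ℚ (fixedField H) F
  rw [hE] at hmul
  have hl : finrank ℚ (lift (fixedField H)) = finrank ℚ (fixedField H) :=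
    (liftAlgEquiv (fixedField H)).toLinearEquiv.finrank_eq.symm
  have hFK : finrank ℚ F ≤ finrank ℚ K := by
    rw [← finrank_mul_finrank ℚ F K]
    exact Nat.le_mul_of_pos_right _ finrank_pos
  rcases h (lift (fixedField H)) with h2 | h2
  · rw [h2, IntermediateField.finrank_bot] at hl
    omega
  · rw [h2, IntermediateField.finrank_top'] at hl
    omega

theorem not_special (hfin : (NSet K).Finite) (hbad : NoBadSubfield K) (ε δ : K) :
    ¬ Special ε δ := by
  rintro ⟨τ, h1, h2, -, h4⟩
  obtain ⟨h5, h6⟩ := degree_of_involution h4 τ h1 h2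
  have key : ∀ L : IntermediateField ℚ ℚ⟮ε⟯, finrank ℚ L = 2 → False := by
    intro L hL2
    obtain ⟨φ⟩ := h4
    let _ : Algebra L K := ((algebraMap ℚ⟮ε⟯ K).comp (algebraMap L ℚ⟮ε⟯)).toAlgebra
    exact infinite_of_real_quadratic (K := K) (L := L) hL2 ⟨φ.comp (algebraMap L ℚ⟮ε⟯)⟩ hfin
  by_cases h7 : finrank ℚ ℚ⟮ε⟯ < 6
  · obtain ⟨L, hL2, -⟩ := h6 h7
    exact key L hL2
  · exact h1 (hbad _ h5 (by omega) h4 (fun L hL => key L hL) τ h2)

end

end Pool.Agent.Helper13.TU
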