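import Mathlib
import Pool.Agent.Helper13.TU.Defs

/-!
# TU-12: inequalities for the constants
-/

namespace Pool.Agent.Helper13.TU

theorem pOf_spec (d : ℕ) (hd : 1 ≤ d) :
    256 * (8 * d ^ 2 + 9) * (8 * (d ^ 2 + 1) * pOf d) ≤ 2 ^ pOf d ∧
    16 * d * (80 * cD (d ^ 2) * pOf d ^ 2) ≤ 2 ^ pOf d ∧
    ∀ R : ℕ, 1 ≤ R → 100 * d ≤ B0 d R (pOf d) := by
  have h1 : d ≤ 2 ^ d := Nat.lt_two_pow_self.le
  have hd2 : 1 ≤ d ^ 2 := Nat.one_le_pow _ _ hd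
  have h2 : d ^ 2 ≤ 2 ^ (2 * d) := by
    rw [mul_comm, pow_mul]
    exact Nat.pow_le_pow_left h1 2
  have a1 : 8 * d ^ 2 + 9 ≤ 2 ^ (5 + 2 * d) := by
    rw [pow_add]; nlinarith
  have a2 : d ^ 2 + 1 ≤ 2 ^ (1 + 2 * d) := by
    rw [pow_add]; nlinarith
  have a3 : pOf d ≤ 2 ^ (7 + d) := by
    unfold pOf
    rw [pow_add]; nlinarith
  have a4 : 16 * d ≤ 2 ^ (4 + d) := by
    rw [pow_add]; nlinarith
  have a5 : cD (d ^ 2) ≤ 2 ^ (22 + 8 * d) := by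
    unfold cD
    calc 2 ^ 14 * (d ^ 2 + 1) ^ 3 * (8 * d ^ 2 + 9)
        ≤ 2 ^ 14 * (2 ^ (1 + 2 * d)) ^ 3 * 2 ^ (5 + 2 * d) := by gcongr
      _ = 2 ^ (22 + 8 * d) := by
        rw [← pow_mul, ← pow_add, ← pow_add]
        congr 1
        ring
  refine ⟨?_, ?_, ?_⟩
  · calc 256 * (8 * d ^ 2 + 9) * (8 * (d ^ 2 + 1) * pOf d)
        ≤ 2 ^ 8 * 2 ^ (5 + 2 * d) * (2 ^ 3 * 2 ^ (1 + 2 * d) * 2 ^ (7 + d)) := by
          gcongr <;> norm_num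
      _ = 2 ^ (24 + 5 * d) := by
        rw [← pow_add, ← pow_add, ← pow_add, ← pow_add]
        congr 1
        ring
      _ ≤ 2 ^ pOf d := Nat.pow_le_pow_right (by norm_num) (by unfold pOf; omega)
  · calc 16 * d * (80 * cD (d ^ 2) * pOf d ^ 2)
        ≤ 2 ^ (4 + d) * (2 ^ 7 * 2 ^ (22 + 8 * d) * (2 ^ (7 + d)) ^ 2) := by
          gcongr
          norm_num
      _ = 2 ^ (47 + 11 * d) := by
        rw [← pow_mul, ← pow_add, ← pow_add, ← pow_add]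
        congr 1
        ring
      _ ≤ 2 ^ pOf d := Nat.pow_le_pow_right (by norm_num) (by unfold pOf; omega)
  · intro R _
    have hq : 1 ≤ 2 ^ pOf d := Nat.one_le_two_pow
    have hc : 1 ≤ cellBd d R (2 ^ pOf d) := by
      unfold cellBd
      refine Nat.one_le_iff_ne_zero.2 ?_
      positivity
    have h3 : 100 * d ≤ 2 ^ pOf d := by
      calc 100 * d ≤ 2 ^ 7 * 2 ^ d := by gcongr; norm_num
        _ = 2 ^ (7 + d) := by rw [← pow_add]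
        _ ≤ 2 ^ pOf d := Nat.pow_le_pow_right (by norm_num) (by unfold pOf; omega)
    unfold B0
    calc 100 * d ≤ 8 * 1 ^ 2 * 2 ^ pOf d := by omega
      _ ≤ 8 * cellBd d R (2 ^ pOf d) ^ 2 * 2 ^ pOf d := by gcongr

end Pool.Agent.Helper13.TU
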