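import Mathlib

/-!
# TU-6: determinants of analytic functions (interpolation determinants)
-/

open Finset

namespace Pool.Agent.Helper13.TU

/-- Newton interpolation of the Cauchy kernel. -/
theorem cauchy_kernel_newton (z : ℕ → ℂ) (w a : ℂ) (hwa : w - a ≠ 0) (n : ℕ)
    (hw : ∀ t, w - z t ≠ 0) :
    (w - a)⁻¹ = ∑ j ∈ range n, (∏ t ∈ range j, (a - z t)) * (∏ t ∈ range (j + 1), (w - z t))⁻¹ +
      (∏ t ∈ range n, (a - z t)) * ((w - a)⁻¹ * (∏ t ∈ range n, (w - z t))⁻¹) := by
  induction n with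
  | zero => simp
  | succ n ih =>
    rw [sum_range_succ, add_assoc]
    conv_lhs => rw [ih]
    congr 1
    rw [prod_range_succ, prod_range_succ]
    have h1 : ∏ t ∈ range n, (w - z t) ≠ 0 := prod_ne_zero_iff.2 fun t _ => hw t
    have h2 := hw n
    field_simp
    ring

theorem norm_det_le_of_col {m : ℕ} (C : Matrix (Fin m) (Fin m) ℂ) (b : Fin m → ℝ)
    (hb : ∀ i j, ‖C i j‖ ≤ b j) : ‖C.det‖ ≤ (m.factorial : ℝ) * ∏ j, b j := by
  rw [Matrix.det_apply]
  refine (norm_sum_le _ _).trans ?_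
  have h1 : ∀ σ ∈ (univ : Finset (Equiv.Perm (Fin m))),
      ‖Equiv.Perm.sign σ • ∏ i, C (σ i) i‖ ≤ ∏ j, b j := by
    intro σ _
    have h2 : ‖Equiv.Perm.sign σ • ∏ i, C (σ i) i‖ = ∏ i, ‖C (σ i) i‖ := by
      rcases Int.units_eq_one_or (Equiv.Perm.sign σ) with h | h <;> simp [h, norm_prod]
    rw [h2]
    exact prod_le_prod (fun _ _ => norm_nonneg _) fun i _ => hb _ _
  refine (sum_le_card_nsmul _ _ _ h1).trans ?_
  rw [card_univ, Fintype.card_perm, Fintype.card_fin, nsmul_eq_mul]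

theorem two_div_le_exp : (2 / 15 : ℝ) ≤ Real.exp (-2) := by
  have h1 : Real.exp 1 < 2.7182818286 := Real.exp_one_lt_d9
  have h2 : Real.exp 2 ≤ 15 / 2 := by
    have : Real.exp 2 = Real.exp 1 * Real.exp 1 := by rw [← Real.exp_add]; norm_num
    rw [this]
    nlinarith [Real.exp_pos 1]
  rw [Real.exp_neg, div_le_iff₀ (by norm_num), ← div_eq_inv_mul, le_div_iff₀ (Real.exp_pos _)]
  linarith

theorem det_analytic_bound {m : ℕ} (f : Fin m → ℂ → ℂ) (z : Fin m → ℂ) (Z B : ℝ) (hZ : 0 < Z)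
    (hB : 0 ≤ B) (hz : ∀ i, ‖z i‖ ≤ Z) (hf : ∀ i, Differentiable ℂ (f i))
    (hfB : ∀ i w, ‖w‖ ≤ 16 * Z → ‖f i w‖ ≤ B) :
    ‖(Matrix.of fun i j => f i (z j)).det‖ ≤
      (m.factorial : ℝ) * (2 * B) ^ m * Real.exp (-((m : ℝ) * (m - 1))) := by
  classical
  set z' : ℕ → ℂ := fun n => if h : n < m then z ⟨n, h⟩ else 0 with hz'
  have hz'n : ∀ n, ‖z' n‖ ≤ Z := by
    intro n
    simp only [hz']
    split_ifs with h
    · exact hz _
    · simpa using hZ.le
  set R : ℝ := 16 * Z with hR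
  have hR0 : 0 < R := by positivity
  have hlow : ∀ w ∈ Metric.sphere (0 : ℂ) R, ∀ n, 15 * Z ≤ ‖w - z' n‖ := by
    intro w hw n
    have h1 : ‖w‖ = R := by simpa using hw
    have h2 := norm_sub_norm_le w (z' n)
    have h3 := hz'n n
    linarith
  have hne : ∀ w ∈ Metric.sphere (0 : ℂ) R, ∀ n, w - z' n ≠ 0 := by
    intro w hw n h
    have := hlow w hw n
    rw [h, norm_zero] at this
    linarith
  -- divided differences
  set c : Fin m → ℕ → ℂ := fun i j => (2 * Real.pi * Complex.I : ℂ)⁻¹ •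
    ∮ w in C(0, R), (∏ t ∈ range (j + 1), (w - z' t))⁻¹ • f i w with hc
  have hint : ∀ i j, CircleIntegrable (fun w => (∏ t ∈ range (j + 1), (w - z' t))⁻¹ • f i w) 0 R := by
    intro i j
    refine ContinuousOn.circleIntegrable hR0.le ?_
    have h1 : Continuous fun w : ℂ => ∏ t ∈ range (j + 1), (w - z' t) := by fun_prop
    refine ContinuousOn.smul (h1.continuousOn.inv₀ ?_) (hf i).continuous.continuousOn
    intro w hw
    exact prod_ne_zero_iff.2 fun t _ => hne w hw t
  have hcb : ∀ i j, ‖c i j‖ ≤ (16 / 15 * B) * ((15 * Z)⁻¹) ^ j := by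
    intro i j
    have h1 : ∀ w ∈ Metric.sphere (0 : ℂ) R,
        ‖(∏ t ∈ range (j + 1), (w - z' t))⁻¹ • f i w‖ ≤ ((15 * Z)⁻¹) ^ (j + 1) * B := by
      intro w hw
      rw [norm_smul, norm_inv, norm_prod]
      refine mul_le_mul ?_ (hfB i w ?_) (norm_nonneg _) (by positivity)
      · rw [← prod_inv_distrib]
        have : ∏ t ∈ range (j + 1), ‖w - z' t‖⁻¹ ≤ ∏ t ∈ range (j + 1), (15 * Z)⁻¹ := by
          refine prod_le_prod (fun _ _ => by positivity) fun t _ => ?_
          exact inv_anti₀ (by positivity) (hlow w hw t)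
        simpa using this
      · have : ‖w‖ = R := by simpa using hw
        linarith
    have h2 := circleIntegral.norm_two_pi_i_inv_smul_integral_le_of_norm_le_const hR0.le h1
    refine h2.trans (le_of_eq ?_)
    rw [hR, pow_succ]
    field_simp
  -- Newton formula
  have hnewton : ∀ i (k : Fin m), f i (z k) =
      ∑ j : Fin m, c i j * ∏ t ∈ range (j : ℕ), (z k - z' t) := by
    intro i k
    have h1 : z k ∈ Metric.ball (0 : ℂ) R := by
      rw [mem_ball_zero_iff]
      have := hz k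
      linarith
    have h2 : (2 * Real.pi * Complex.I : ℂ)⁻¹ • (∮ w in C(0, R), (w - z k)⁻¹ • f i w) = f i (z k) :=
      (hf i).diffContOnCl.two_pi_i_inv_smul_circleIntegral_sub_inv_smul h1
    have hzk : z' k = z k := by simp [hz']
    have h3 : (∮ w in C(0, R), (w - z k)⁻¹ • f i w) =
        ∮ w in C(0, R), ∑ j ∈ range m, (∏ t ∈ range j, (z k - z' t)) •
          ((∏ t ∈ range (j + 1), (w - z' t))⁻¹ • f i w) := by
      refine circleIntegral.integral_congr hR0.le fun w hw => ?_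
      have h4 := cauchy_kernel_newton z' w (z k) (by rw [← hzk]; exact hne w hw k) m (hne w hw)
      have h5 : ∏ t ∈ range m, (z k - z' t) = 0 :=
        prod_eq_zero (mem_range.2 k.2) (by rw [hzk, sub_self])
      rw [h5, zero_mul, add_zero] at h4
      simp only [h4, smul_eq_mul, sum_mul, mul_assoc]
    rw [← h2, h3, circleIntegral.integral_fun_sum]
    · rw [Fin.sum_univ_eq_sum_range (fun j => c i j * ∏ t ∈ range j, (z k - z' t)) m, smul_sum]
      refine sum_congr rfl fun j _ => ?_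
      rw [circleIntegral.integral_smul]
      simp only [hc, smul_eq_mul]
      ring
    · intro j _
      exact (hint i j).const_smul
  have hmat : (Matrix.of fun i j => f i (z j)) =
      (Matrix.of fun (i j : Fin m) => c i j) *
        (Matrix.of fun (j k : Fin m) => ∏ t ∈ range (j : ℕ), (z k - z' t)) := by
    ext i k
    simp only [Matrix.of_apply, Matrix.mul_apply]
    exact hnewton i k
  rw [hmat, Matrix.det_mul, norm_mul]
  have hU : ‖(Matrix.of fun (j k : Fin m) => ∏ t ∈ range (j : ℕ), (z k - z' t)).det‖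
      ≤ ∏ j : Fin m, (2 * Z) ^ (j : ℕ) := by
    rw [Matrix.det_of_isUpperTriangular, norm_prod]
    · refine prod_le_prod (fun _ _ => norm_nonneg _) fun j _ => ?_
      rw [Matrix.of_apply, norm_prod]
      have : ∏ t ∈ range (j : ℕ), ‖z j - z' t‖ ≤ ∏ t ∈ range (j : ℕ), (2 * Z) := by
        refine prod_le_prod (fun _ _ => norm_nonneg _) fun t _ => ?_
        have h1 := norm_sub_le (z j) (z' t)
        have h2 := hz j
        have h3 := hz'n t
        linarith
      simpa using this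
    · intro j k hkj
      simp only [id] at hkj
      rw [Matrix.of_apply]
      refine prod_eq_zero (i := (k : ℕ)) (mem_range.2 hkj) ?_
      simp [hz']
  have hC := norm_det_le_of_col (Matrix.of fun (i j : Fin m) => c i j)
    (fun j => (16 / 15 * B) * ((15 * Z)⁻¹) ^ (j : ℕ)) (fun i j => hcb i j)
  have hprod : (∏ j : Fin m, (16 / 15 * B) * ((15 * Z)⁻¹) ^ (j : ℕ)) *
      ∏ j : Fin m, (2 * Z) ^ (j : ℕ) = (16 / 15 * B) ^ m * (2 / 15) ^ (∑ j : Fin m, (j : ℕ)) := by
    rw [← prod_mul_distrib]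
    have h1 : ∀ j : Fin m, (16 / 15 * B) * ((15 * Z)⁻¹) ^ (j : ℕ) * (2 * Z) ^ (j : ℕ)
        = (16 / 15 * B) * (2 / 15) ^ (j : ℕ) := by
      intro j
      rw [mul_assoc, ← mul_pow]
      congr 2
      field_simp
    rw [prod_congr rfl fun j _ => h1 j, prod_mul_distrib, prod_pow_eq_pow_sum]
    simp
  have hsum : ((∑ j : Fin m, (j : ℕ) : ℕ) : ℝ) * 2 = (m : ℝ) * (m - 1) := by
    rw [Fin.sum_univ_eq_sum_range (fun j => j) m]
    have h1 := Finset.sum_range_id_mul_two m
    rcases m with _ | m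
    · simp
    · have : (((∑ i ∈ range (m + 1), i) * 2 : ℕ) : ℝ) = (((m + 1) * (m + 1 - 1) : ℕ) : ℝ) := by
        exact_mod_cast congrArg (Nat.cast (R := ℝ)) h1
      push_cast at this ⊢
      linarith
  calc ‖(Matrix.of fun (i j : Fin m) => c i j).det‖ *
        ‖(Matrix.of fun (j k : Fin m) => ∏ t ∈ range (j : ℕ), (z k - z' t)).det‖
      ≤ ((m.factorial : ℝ) * ∏ j : Fin m, (16 / 15 * B) * ((15 * Z)⁻¹) ^ (j : ℕ)) *
          ∏ j : Fin m, (2 * Z) ^ (j : ℕ) := by
        refine mul_le_mul hC hU (norm_nonneg _) ?_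
        refine mul_nonneg (by positivity) (prod_nonneg fun _ _ => by positivity)
    _ = (m.factorial : ℝ) * ((16 / 15 * B) ^ m * (2 / 15) ^ (∑ j : Fin m, (j : ℕ))) := by
        rw [mul_assoc, hprod]
    _ ≤ (m.factorial : ℝ) * ((2 * B) ^ m * Real.exp (-((m : ℝ) * (m - 1)))) := by
        gcongr
        · linarith
        · calc (2 / 15 : ℝ) ^ (∑ j : Fin m, (j : ℕ)) ≤ Real.exp (-2) ^ (∑ j : Fin m, (j : ℕ)) := by
                gcongr
                exact two_div_le_exp
            _ = Real.exp (-((m : ℝ) * (m - 1))) := by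
                rw [← Real.exp_nat_mul, ← hsum]
                congr 1
                ring
    _ = _ := by ring

end Pool.Agent.Helper13.TU
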