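import Mathlib
import Pool.Agent.Helper13.TU.TU6

/-!
# TU-7: determinants of perturbed analytic functions
-/

open Finset

namespace Pool.Agent.Helper13.TU

theorem det_some_rows_bound (Z B b : ℝ) (hZ : 0 < Z) (hB : 0 ≤ B) (hb : 0 ≤ b) (N : ℕ) :
    ∀ (S : Finset (Fin N)) (f : Fin N → ℂ → ℂ) (z : Fin N → ℂ) (M : Matrix (Fin N) (Fin N) ℂ),
      (∀ i, ‖z i‖ ≤ Z) → (∀ i, Differentiable ℂ (f i)) →
      (∀ i w, ‖w‖ ≤ 16 * Z → ‖f i w‖ ≤ B) → (∀ i ∈ S, ∀ j, M i j = f i (z j)) →
      (∀ i ∉ S, ∀ j, ‖M i j‖ ≤ b) →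
      ‖M.det‖ ≤ (N.factorial : ℝ) * (b ^ (N - #S) * ((2 * B) ^ #S *
        Real.exp (-((#S : ℝ) * (#S - 1))))) := by
  induction N with
  | zero =>
    intro S f z M _ _ _ _ _
    have : S = ∅ := Finset.eq_empty_of_isEmpty S
    subst this
    simp
  | succ N ih =>
    intro S f z M hz hf hfB hMS hMb
    by_cases hS : S = univ
    · subst hS
      have h1 : M = Matrix.of fun i j => f i (z j) := by
        ext i j
        exact hMS i (mem_univ _) j
      have h2 := det_analytic_bound f z Z B hZ hB hz hf hfB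
      rw [← h1] at h2
      simp only [card_univ, Fintype.card_fin, Nat.sub_self, pow_zero, one_mul]
      rw [← mul_assoc]
      exact h2
    · obtain ⟨i, hi⟩ : ∃ i, i ∉ S := by
        by_contra h
        push Not at h
        exact hS (Finset.eq_univ_iff_forall.2 h)
      set S' : Finset (Fin N) := univ.filter fun k => i.succAbove k ∈ S with hS'
      have hcard : #S' = #S := by
        have : S'.map ⟨i.succAbove, Fin.succAbove_right_injective⟩ = S := by
          ext k
          simp only [hS', mem_map, mem_filter, mem_univ, true_and, Function.Embedding.coeFn_mk]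
          constructor
          · rintro ⟨a, ha, rfl⟩; exact ha
          · intro hk
            have hki : k ≠ i := fun h => hi (h ▸ hk)
            obtain ⟨a, rfl⟩ := Fin.exists_succAbove_eq hki
            exact ⟨a, hk, rfl⟩
        rw [← this, card_map]
      have hSN : #S ≤ N := by
        rw [← hcard]
        simpa using card_le_univ S'
      rw [Matrix.det_succ_row M i]
      refine (norm_sum_le _ _).trans ?_
      have h1 : ∀ j ∈ (univ : Finset (Fin (N + 1))),
          ‖(-1 : ℂ) ^ ((i : ℕ) + (j : ℕ)) * M i j * (M.submatrix i.succAbove j.succAbove).det‖ ≤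
            b * ((N.factorial : ℝ) * (b ^ (N - #S) * ((2 * B) ^ #S *
              Real.exp (-((#S : ℝ) * (#S - 1)))))) := by
        intro j _
        rw [norm_mul, norm_mul, norm_pow, norm_neg, norm_one, one_pow, one_mul]
        refine mul_le_mul (hMb i hi j) ?_ (norm_nonneg _) hb
        have h2 := ih S' (fun k => f (i.succAbove k)) (fun k => z (j.succAbove k))
          (M.submatrix i.succAbove j.succAbove) (fun k => hz _) (fun k => hf _)
          (fun k w hw => hfB _ w hw) (fun k hk l => hMS _ (by simpa [hS'] using hk) _)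
          (fun k hk l => hMb _ (by simpa [hS'] using hk) _)
        rwa [hcard] at h2
      refine (sum_le_card_nsmul _ _ _ h1).trans (le_of_eq ?_)
      rw [card_univ, Fintype.card_fin, nsmul_eq_mul, Nat.factorial_succ]
      have h3 : N + 1 - #S = (N - #S) + 1 := by omega
      rw [h3, pow_succ]
      push_cast
      ring

theorem det_mixed_bound_fin (N : ℕ) (f : Fin N → ℂ → ℂ) (z : Fin N → ℂ)
    (e : Fin N → Fin N → ℂ) (Z B : ℝ) (hZ : 0 < Z) (hB : 0 ≤ B) (hz : ∀ i, ‖z i‖ ≤ Z)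
    (hf : ∀ i, Differentiable ℂ (f i)) (hfB : ∀ i w, ‖w‖ ≤ 16 * Z → ‖f i w‖ ≤ B)
    (he : ∀ i j, ‖e i j‖ ≤ B * Real.exp (-(2 * (N : ℝ)))) :
    ‖(Matrix.of fun i j => f i (z j) + e i j).det‖ ≤
      (N.factorial : ℝ) * (4 * B) ^ N * Real.exp ((N : ℝ) - (N : ℝ) ^ 2) := by
  classical
  have h0 : (Matrix.of fun i j => f i (z j) + e i j).det
      = ∑ s : Finset (Fin N), Matrix.det (Matrix.of (s.piecewise (fun i j => f i (z j)) e)) := by
    have := (Matrix.detRowAlternating (n := Fin N) (R := ℂ)).toMultilinearMap.map_add_univ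
      (fun i j => f i (z j)) e
    exact this
  rw [h0]
  refine (norm_sum_le _ _).trans ?_
  have h1 : ∀ s ∈ (univ : Finset (Finset (Fin N))),
      ‖Matrix.det (Matrix.of (s.piecewise (fun i j => f i (z j)) e))‖ ≤
        (N.factorial : ℝ) * (2 * B) ^ N * Real.exp ((N : ℝ) - (N : ℝ) ^ 2) := by
    intro s _
    have h2 := det_some_rows_bound Z B (B * Real.exp (-(2 * (N : ℝ)))) hZ hB (by positivity) N s f z
      (Matrix.of (s.piecewise (fun i j => f i (z j)) e)) hz hf hfB
      (fun i hi j => by simp [hi]) (fun i hi j => by simpa [hi] using he i j)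
    refine h2.trans ?_
    rw [mul_assoc]
    refine mul_le_mul_of_nonneg_left ?_ (by positivity)
    have hsN : #s ≤ N := by simpa using card_le_univ s
    have hsN' : (#s : ℝ) ≤ N := by exact_mod_cast hsN
    have h3 : (B * Real.exp (-(2 * (N : ℝ)))) ^ (N - #s) * ((2 * B) ^ #s *
        Real.exp (-((#s : ℝ) * (#s - 1)))) = B ^ N * 2 ^ #s *
          Real.exp (-(2 * (N : ℝ)) * (N - #s) - (#s : ℝ) * (#s - 1)) := by
      rw [mul_pow, mul_pow, ← Real.exp_nat_mul, Nat.cast_sub hsN]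
      have h4 : B ^ N = B ^ (N - #s) * B ^ #s := by rw [← pow_add]; congr 1; omega
      rw [h4]
      have h5 : Real.exp (-(2 * (N : ℝ)) * (N - #s) - (#s : ℝ) * (#s - 1))
          = Real.exp (((N : ℝ) - #s) * -(2 * (N : ℝ))) * Real.exp (-((#s : ℝ) * (#s - 1))) := by
        rw [← Real.exp_add]; congr 1; ring
      rw [h5]
      ring
    rw [h3, mul_pow]
    have h6 : (2 : ℝ) ^ #s ≤ 2 ^ N := pow_le_pow_right₀ (by norm_num) hsN
    have h7 : -(2 * (N : ℝ)) * (N - #s) - (#s : ℝ) * (#s - 1) ≤ (N : ℝ) - (N : ℝ) ^ 2 := by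
      nlinarith [sq_nonneg ((N : ℝ) - #s)]
    calc B ^ N * 2 ^ #s * Real.exp (-(2 * (N : ℝ)) * (N - #s) - (#s : ℝ) * (#s - 1))
        ≤ B ^ N * 2 ^ N * Real.exp ((N : ℝ) - (N : ℝ) ^ 2) := by gcongr
      _ = 2 ^ N * B ^ N * Real.exp ((N : ℝ) - (N : ℝ) ^ 2) := by ring
  refine (sum_le_card_nsmul _ _ _ h1).trans (le_of_eq ?_)
  rw [card_univ, Fintype.card_finset, Fintype.card_fin, nsmul_eq_mul]
  have h2 : (4 * B) ^ N = 2 ^ N * (2 * B) ^ N := by rw [← mul_pow]; congr 1; ring
  rw [h2]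
  push_cast
  ring

theorem det_mixed_bound {ι : Type*} [Fintype ι] [DecidableEq ι] (f : ι → ℂ → ℂ) (z : ι → ℂ)
    (e : ι → ι → ℂ) (Z B : ℝ) (hZ : 0 < Z) (hB : 0 ≤ B) (hz : ∀ i, ‖z i‖ ≤ Z)
    (hf : ∀ i, Differentiable ℂ (f i)) (hfB : ∀ i w, ‖w‖ ≤ 16 * Z → ‖f i w‖ ≤ B)
    (he : ∀ i j, ‖e i j‖ ≤ B * Real.exp (-(2 * (Fintype.card ι : ℝ)))) :
    ‖(Matrix.of fun i j => f i (z j) + e i j).det‖ ≤
      ((Fintype.card ι).factorial : ℝ) * (4 * B) ^ (Fintype.card ι) *
        Real.exp ((Fintype.card ι : ℝ) - (Fintype.card ι : ℝ) ^ 2) := by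
  set φ : Fin (Fintype.card ι) ≃ ι := (Fintype.equivFin ι).symm with hφ
  have h1 := det_mixed_bound_fin (Fintype.card ι) (fun i => f (φ i)) (fun i => z (φ i))
    (fun i j => e (φ i) (φ j)) Z B hZ hB (fun i => hz _) (fun i => hf _)
    (fun i w hw => hfB _ w hw) (fun i j => he _ _)
  have h2 : (Matrix.of fun i j => f i (z j) + e i j).det =
      (Matrix.of fun i j => f (φ i) (z (φ j)) + e (φ i) (φ j)).det := by
    rw [← Matrix.det_submatrix_equiv_self φ]
    rfl
  rw [h2]
  exact h1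

end Pool.Agent.Helper13.TU
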