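import Mathlib

/-! Auxiliary estimates for the two-logarithm inequality -/

set_option autoImplicit false

open Polynomial

namespace Pool.Agent.Helper13.TU

/-- `x^k / k! ≤ exp (t x) t^(-K)` -/
theorem pow_div_fact_le (x t : ℝ) (hx : 0 ≤ x) (ht0 : 0 < t) (ht1 : t ≤ 1) (k K : ℕ)
    (hk : k ≤ K) : x ^ k / (k.factorial : ℝ) ≤ Real.exp (t * x) * t⁻¹ ^ K := by
  have h1 : (t * x) ^ k / (k.factorial : ℝ) ≤ Real.exp (t * x) :=
    Real.pow_div_factorial_le_exp (t * x) (by positivity) k
  have h2 : x ^ k / (k.factorial : ℝ) = (t * x) ^ k / (k.factorial : ℝ) * t⁻¹ ^ k := by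
    rw [mul_pow, inv_pow]
    field_simp
  rw [h2]
  have h3 : t⁻¹ ^ k ≤ t⁻¹ ^ K := pow_le_pow_right₀ (by rw [one_le_inv₀ ht0]; exact ht1) hk
  exact mul_le_mul h1 h3 (by positivity) (by positivity)

theorem choose_le_exp (z k K : ℕ) (hk : k ≤ K) (t : ℝ) (ht0 : 0 < t) (ht1 : t ≤ 1) :
    ((z.choose k : ℕ) : ℝ) ≤ Real.exp (t * z) * t⁻¹ ^ K := by
  refine le_trans ?_ (pow_div_fact_le (z : ℝ) t (by positivity) ht0 ht1 k K hk)
  exact Nat.choose_le_pow_div k z

theorem norm_descPochhammer_le (w : ℂ) (R : ℝ) (hw : ‖w‖ ≤ R) (k K : ℕ) (hk : k ≤ K) (t : ℝ)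
    (ht0 : 0 < t) (ht1 : t ≤ 1) :
    ‖(descPochhammer ℂ k).eval w / (k.factorial : ℂ)‖ ≤ Real.exp (t * (R + K)) * t⁻¹ ^ K := by
  have hR : 0 ≤ R := le_trans (norm_nonneg _) hw
  refine le_trans ?_ (pow_div_fact_le (R + K) t (by positivity) ht0 ht1 k K hk)
  rw [norm_div, Complex.norm_natCast]
  refine div_le_div_of_nonneg_right ?_ (by positivity)
  rw [descPochhammer_eval_eq_prod_range, norm_prod]
  calc ∏ i ∈ Finset.range k, ‖w - (i : ℂ)‖ ≤ ∏ i ∈ Finset.range k, (R + K) := by
        refine Finset.prod_le_prod (fun _ _ => norm_nonneg _) (fun i hi => ?_)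
        refine le_trans (norm_sub_le _ _) ?_
        rw [Complex.norm_natCast]
        have : (i : ℝ) ≤ K := by
          have := Finset.mem_range.1 hi
          exact_mod_cast (by omega : i ≤ K)
        linarith
    _ = (R + K) ^ k := by simp

theorem descPochhammer_nat (z k : ℕ) :
    (descPochhammer ℂ k).eval (z : ℂ) / (k.factorial : ℂ) = ((z.choose k : ℕ) : ℂ) := by
  rw [descPochhammer_eval_eq_descFactorial, Nat.descFactorial_eq_factorial_mul_choose]
  push_cast
  have : (k.factorial : ℂ) ≠ 0 := by exact_mod_cast k.factorial_ne_zero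
  field_simp

theorem log_nat_le (N : ℕ) (hN : 1 ≤ N) : Real.log N ≤ 2 * Real.sqrt N := by
  have h0 : (0:ℝ) < N := by exact_mod_cast hN
  have h1 : Real.log (Real.sqrt N) ≤ Real.sqrt N - 1 :=
    Real.log_le_sub_one_of_pos (Real.sqrt_pos.2 h0)
  rw [Real.log_sqrt h0.le] at h1
  linarith

/-- the final contradiction -/
theorem two_log_ineq (D N : ℕ) (hN : 2 ^ 14 * (D + 1) ^ 2 ≤ N) (J : ℝ)
    (hJ : ((D : ℝ) + 1) * J ≤ 0.4 * N) :
    ((N.factorial : ℝ) * (Real.exp J) ^ N) ^ D *
      ((N.factorial : ℝ) * (4 * Real.exp J) ^ N * Real.exp ((N : ℝ) - (N : ℝ) ^ 2)) < 1 := by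
  have hN1 : 1 ≤ N := le_trans (Nat.one_le_iff_ne_zero.2 (by positivity)) hN
  have hNr : (0 : ℝ) < N := by exact_mod_cast hN1
  have hfac : (N.factorial : ℝ) ≤ Real.exp (N * Real.log N) := by
    have h1 : N.factorial ≤ N ^ N := Nat.factorial_le_pow N
    have h2 : Real.exp (N * Real.log N) = (N : ℝ) ^ N := by
      rw [mul_comm, Real.exp_mul, Real.exp_log hNr, Real.rpow_natCast]
    rw [h2]
    exact_mod_cast h1
  have h4 : (4 : ℝ) ≤ Real.exp 1.4 := by
    have h5 : (2.7182818283 : ℝ) < Real.exp 1 := Real.exp_one_gt_d9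
    have h6 : Real.exp 1.4 = Real.exp 1 * Real.exp 0.4 := by rw [← Real.exp_add]; norm_num
    have h7 : (1.48 : ℝ) ≤ Real.exp 0.4 := by
      have := Real.quadratic_le_exp_of_nonneg (x := 0.4) (by norm_num)
      norm_num at this ⊢
      linarith
    rw [h6]
    nlinarith
  have hfac0 : (0 : ℝ) < N.factorial := by exact_mod_cast N.factorial_pos
  have hA : ((N.factorial : ℝ) * (Real.exp J) ^ N) ^ D ≤
      Real.exp (D * (N * Real.log N + N * J)) := by
    have : (N.factorial : ℝ) * (Real.exp J) ^ N ≤ Real.exp (N * Real.log N + N * J) := by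
      rw [Real.exp_add, ← Real.exp_nat_mul]
      exact mul_le_mul_of_nonneg_right hfac (by positivity)
    calc ((N.factorial : ℝ) * (Real.exp J) ^ N) ^ D
        ≤ (Real.exp (N * Real.log N + N * J)) ^ D :=
          pow_le_pow_left₀ (by positivity) this D
      _ = _ := by rw [← Real.exp_nat_mul]
  have hB : (N.factorial : ℝ) * (4 * Real.exp J) ^ N * Real.exp ((N : ℝ) - (N : ℝ) ^ 2) ≤
      Real.exp (N * Real.log N + N * (1.4 + J) + ((N : ℝ) - (N : ℝ) ^ 2)) := by
    rw [Real.exp_add, Real.exp_add]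
    refine mul_le_mul_of_nonneg_right ?_ (by positivity)
    refine mul_le_mul hfac ?_ (by positivity) (by positivity)
    rw [Real.exp_nat_mul, Real.exp_add]
    exact pow_le_pow_left₀ (by positivity) (mul_le_mul_of_nonneg_right h4 (by positivity)) N
  calc _ ≤ Real.exp (D * (N * Real.log N + N * J)) *
        Real.exp (N * Real.log N + N * (1.4 + J) + ((N : ℝ) - (N : ℝ) ^ 2)) :=
        mul_le_mul hA hB (by positivity) (by positivity)
    _ = Real.exp (N * (((D : ℝ) + 1) * Real.log N + ((D : ℝ) + 1) * J + 2.4 - N)) := by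
        rw [← Real.exp_add]; congr 1; ring
    _ < 1 := by
        rw [Real.exp_lt_one_iff]
        have hlog : Real.log N ≤ 2 * Real.sqrt N := log_nat_le N hN1
        have hs : (128 : ℝ) * (D + 1) ≤ Real.sqrt N := by
          apply Real.le_sqrt_of_sq_le
          have : ((2 ^ 14 * (D + 1) ^ 2 : ℕ) : ℝ) ≤ N := by exact_mod_cast hN
          push_cast at this
          nlinarith
        have hss : Real.sqrt N * Real.sqrt N = N := Real.mul_self_sqrt hNr.le
        have hD0 : (0 : ℝ) ≤ D := by positivity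
        have hs0 : 128 ≤ Real.sqrt N := by nlinarith
        have h8 : ((D : ℝ) + 1) * Real.log N ≤ 0.1 * N := by
          have h9 : ((D : ℝ) + 1) * Real.log N ≤ ((D : ℝ) + 1) * (2 * Real.sqrt N) :=
            mul_le_mul_of_nonneg_left hlog (by positivity)
          have h10 : ((D : ℝ) + 1) * (2 * Real.sqrt N) ≤ (Real.sqrt N / 128) * (2 * Real.sqrt N) :=
            mul_le_mul_of_nonneg_right (by linarith) (by positivity)
          have h11 : (Real.sqrt N / 128) * (2 * Real.sqrt N) = N / 64 := by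
            linear_combination (1 / 64 : ℝ) * hss
          linarith
        have h12 : (2.4 : ℝ) ≤ 0.1 * N := by nlinarith
        have : ((D : ℝ) + 1) * Real.log N + ((D : ℝ) + 1) * J + 2.4 - N < 0 := by linarith
        exact mul_neg_of_pos_of_neg hNr this

end Pool.Agent.Helper13.TU
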