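import Mathlib
import Pool.Agent.Helper13.TU.Defs
import Pool.Agent.Helper39.TU.TU10
import Pool.Agent.Helper13.TU.TU12
import Pool.Agent.Helper13.TU.NoBad
import Pool.Agent.Helper28.TU.FieldOf
import Pool.Agent.Helper39.TU.TU14
import Pool.Agent.Helper47.TU.Prim
import Pool.Agent.Helper25.TU.WeakBaker

/-! Final assembly for MP_86b3ee_nt -/

set_option autoImplicit false

open NumberField Polynomial Module IntermediateField

namespace Pool.Agent.Helper13.TU

section general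
variable {K : Type*} [Field K] [NumberField K]

/-- every large solution is special -/
theorem bounded_or_special {R : ℕ} (P : Prim K R) (ε δ : (𝓞 K)ˣ) (n : ℕ) (hn : 1 ≤ n)
    (h : ((ε : 𝓞 K) : K) + ((δ : 𝓞 K) : K) = (n : K)) :
    (∀ σ : K →+* ℂ,
      |Real.log ‖σ ((ε : 𝓞 K) : K)‖| ≤ (B0 (finrank ℚ K) R (pOf (finrank ℚ K)) : ℕ) ∧
      |Real.log ‖σ ((δ : 𝓞 K) : K)‖| ≤ (B0 (finrank ℚ K) R (pOf (finrank ℚ K)) : ℕ)) ∨
      Special ((ε : 𝓞 K) : K) ((δ : 𝓞 K) : K) := by
  have hd : 1 ≤ finrank ℚ K := finrank_pos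
  obtain ⟨h1, h2, h3⟩ := pOf_spec (finrank ℚ K) hd
  have hp1 : 1 ≤ pOf (finrank ℚ K) := by unfold pOf; omega
  have hR := P.one_le
  refine large_special _ ?_ ?_ ε δ n hn h
  · exact_mod_cast h3 R hR
  · intro x y σ₁ σ₂ B hB hx hy hne
    refine le_trans ?_ (weak_baker P _ hp1 h1 x y σ₁ σ₂ B hB hx hy hne)
    apply Real.exp_le_exp.2
    apply neg_le_neg
    have hd0 : (0 : ℝ) < finrank ℚ K := by exact_mod_cast hd
    have hB0 : 0 ≤ B := le_trans (by positivity) hB
    have h4 : (16 * (finrank ℚ K : ℝ)) *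
        (80 * (cD (finrank ℚ K ^ 2) : ℝ) * (pOf (finrank ℚ K) : ℝ) ^ 2) ≤
        2 ^ pOf (finrank ℚ K) := by exact_mod_cast h2
    have h5 : 80 * (cD (finrank ℚ K ^ 2) : ℝ) * (pOf (finrank ℚ K) : ℝ) ^ 2 /
        2 ^ pOf (finrank ℚ K) ≤ 1 / (16 * finrank ℚ K) := by
      rw [div_le_div_iff₀ (by positivity) (by positivity)]
      linarith
    calc _ ≤ (1 / (16 * finrank ℚ K)) * B := mul_le_mul_of_nonneg_right h5 hB0
      _ = B / (16 * finrank ℚ K) := by ring

theorem norm_le_of_log {x : (𝓞 K)ˣ} {σ : K →+* ℂ} {B : ℕ}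
    (h : |Real.log ‖σ ((x : 𝓞 K) : K)‖| ≤ (B : ℕ)) : ‖σ ((x : 𝓞 K) : K)‖ ≤ ((3 ^ B : ℕ) : ℝ) := by
  have h0 : 0 < ‖σ ((x : 𝓞 K) : K)‖ := norm_pos_iff.2 (unit_ne_zero' x σ)
  have h1 : Real.log ‖σ ((x : 𝓞 K) : K)‖ ≤ B := le_trans (le_abs_self _) h
  have h2 : ‖σ ((x : 𝓞 K) : K)‖ ≤ Real.exp B := by
    rw [← Real.log_le_iff_le_exp h0]; exact h1
  refine le_trans h2 ?_
  have h3 : Real.exp 1 ≤ 3 := by have := Real.exp_one_lt_d9; linarith
  calc Real.exp B = (Real.exp 1) ^ B := by rw [← Real.exp_nat_mul, mul_one]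
    _ ≤ 3 ^ B := pow_le_pow_left₀ (by positivity) h3 B
    _ = ((3 ^ B : ℕ) : ℝ) := by push_cast; ring

end general

theorem root_rel {c : List ℤ} {A : Type*} [CommRing A] (θ : A) (h : aeval θ (polyOf c) = 0) :
    θ ^ c.length + ∑ i ∈ Finset.range c.length, ((c.getD i 0 : ℤ) : A) * θ ^ i = 0 := by
  rw [← h, polyOf]
  simp


/-- the root of `polyOf c` -/
noncomputable abbrev rt (c : List ℤ) : fieldOf c :=
  AdjoinRoot.root ((polyOf c).map (Int.castRingHom ℚ))

section concrete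
variable (c : List ℤ) [Fact (Irreducible ((polyOf c).map (Int.castRingHom ℚ)))]

theorem length_pos' : 1 ≤ c.length := by
  rw [← finrank_fieldOf c]
  exact finrank_pos

theorem polyOf_natDegree (c : List ℤ) : (polyOf c).Monic ∧ (polyOf c).natDegree = c.length := by
  have h1 : (∑ i ∈ Finset.range c.length, C (c.getD i 0) * X ^ i : ℤ[X]).degree <
      (c.length : WithBot ℕ) := by
    rw [Polynomial.degree_lt_iff_coeff_zero]
    intro m hm
    rw [Polynomial.finsetSum_coeff]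
    refine Finset.sum_eq_zero fun i hi => ?_
    rw [Polynomial.coeff_C_mul, Polynomial.coeff_X_pow, if_neg, mul_zero]
    have := Finset.mem_range.1 hi
    omega
  refine ⟨?_, ?_⟩
  · unfold polyOf
    exact Polynomial.monic_X_pow_add h1
  · unfold polyOf
    rw [Polynomial.natDegree_add_eq_left_of_degree_lt]
    · simp
    · rw [Polynomial.degree_X_pow]; exact h1

theorem aeval_int {A : Type*} [CommRing A] [Algebra ℤ A] (θ : A) (q : ℤ[X]) :
    aeval θ q = Polynomial.eval₂ (Int.castRingHom A) θ q := by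
  rw [Polynomial.aeval_def]
  congr 1
  exact RingHom.ext_int _ _

theorem aeval_rt : aeval (rt c) (polyOf c) = 0 := by
  have h := AdjoinRoot.eval₂_root ((polyOf c).map (Int.castRingHom ℚ))
  rw [Polynomial.eval₂_map] at h
  rw [aeval_int]
  convert h using 2
  exact RingHom.ext_int _ _

theorem valL_rt_eq_zero (a : List ℤ) (ha : a.length = c.length)
    (h : valL (rt c) c.length a = 0) : ∀ x ∈ a, x = 0 := by
  obtain ⟨hmon, hdeg⟩ := polyOf_natDegree c
  let q : ℚ[X] := ∑ i ∈ Finset.range c.length, C ((a.getD i 0 : ℤ) : ℚ) * X ^ i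
  have hcoeff : ∀ i, i < c.length → q.coeff i = ((a.getD i 0 : ℤ) : ℚ) := by
    intro i hi
    simp only [q, Polynomial.finsetSum_coeff, Polynomial.coeff_C_mul, Polynomial.coeff_X_pow]
    rw [Finset.sum_eq_single i]
    · simp
    · intro b _ hb
      rw [if_neg (Ne.symm hb), mul_zero]
    · intro h; exact absurd (Finset.mem_range.2 hi) h
  have hqdeg : q.degree < (c.length : WithBot ℕ) := by
    rw [Polynomial.degree_lt_iff_coeff_zero]
    intro m hm
    simp only [q, Polynomial.finsetSum_coeff]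
    refine Finset.sum_eq_zero fun i hi => ?_
    rw [Polynomial.coeff_C_mul, Polynomial.coeff_X_pow, if_neg, mul_zero]
    have := Finset.mem_range.1 hi
    omega
  have hmk : AdjoinRoot.mk ((polyOf c).map (Int.castRingHom ℚ)) q = 0 := by
    rw [← h]
    simp only [q, valL, map_sum, map_mul, map_pow, AdjoinRoot.mk_X]
    refine Finset.sum_congr rfl fun i _ => ?_
    congr 1
  rw [AdjoinRoot.mk_eq_zero] at hmk
  have hq0 : q = 0 := by
    by_contra hq
    have h1 := Polynomial.degree_le_of_dvd hmk hq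
    have h2 : ((polyOf c).map (Int.castRingHom ℚ)).degree = (c.length : WithBot ℕ) := by
      rw [hmon.degree_map, Polynomial.degree_eq_natDegree hmon.ne_zero, hdeg]
    rw [h2] at h1
    exact absurd hqdeg (not_lt.2 h1)
  intro x hx
  obtain ⟨i, hi, rfl⟩ := List.mem_iff_getElem.1 hx
  have h3 := hcoeff i (by omega)
  rw [hq0, Polynomial.coeff_zero] at h3
  have h4 : (a.getD i 0 : ℤ) = 0 := by exact_mod_cast h3.symm
  rw [List.getD_eq_getElem _ _ hi] at h4
  exact h4

theorem valL_derivL_rt : valL (rt c) c.length (derivL c) =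
    aeval (rt c) (derivative (polyOf c)) :=
  ((valL_derivL (rt c) c).trans (aeval_int _ _)).trans (aeval_int _ _).symm

theorem deriv_ne_zero : aeval (rt c) (derivative (polyOf c)) ≠ 0 := by
  rw [← valL_derivL_rt]
  intro h
  have hc := length_pos' c
  have h1 := valL_rt_eq_zero c (derivL c) (by simp [derivL]) h
  have h2 : ((((c.length - 1 : ℕ) : ℤ) + 1) * 1 : ℤ) ∈ derivL c := by
    unfold derivL
    refine List.mem_map.2 ⟨c.length - 1, List.mem_range.2 (by omega), ?_⟩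
    rw [if_pos (by omega)]
  have h3 := h1 _ h2
  omega

theorem unit_of_rel {K : Type*} [Field K] [NumberField K] (x : K) (d : ℕ) (hd : 1 ≤ d)
    (P : List ℤ) (hP0 : (P.getD 0 0).natAbs = 1)
    (h : x ^ d + ∑ i ∈ Finset.range d, ((P.getD i 0 : ℤ) : K) * x ^ i = 0) :
    ∃ u : (𝓞 K)ˣ, ((u : 𝓞 K) : K) = x := by
  have hint : IsIntegral ℤ x := by
    refine ⟨X ^ d + ∑ i ∈ Finset.range d, C (P.getD i 0) * X ^ i, ?_, ?_⟩
    · apply Polynomial.monic_X_pow_add
      rw [Polynomial.degree_lt_iff_coeff_zero]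
      intro m hm
      rw [Polynomial.finsetSum_coeff]
      refine Finset.sum_eq_zero fun i hi => ?_
      rw [Polynomial.coeff_C_mul, Polynomial.coeff_X_pow, if_neg, mul_zero]
      have := Finset.mem_range.1 hi
      omega
    · rw [← h]
      simp only [Polynomial.eval₂_add, Polynomial.eval₂_pow, Polynomial.eval₂_X,
        Polynomial.eval₂_finsetSum, Polynomial.eval₂_mul, Polynomial.eval₂_C]
      simp
  obtain ⟨y, hy⟩ : ∃ y : 𝓞 K, (y : K) = x := ⟨⟨x, hint⟩, rfl⟩
  have h2 : y ^ d + ∑ i ∈ Finset.range d, ((P.getD i 0 : ℤ) : 𝓞 K) * y ^ i = 0 := by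
    apply RingOfIntegers.ext
    rw [← hy] at h
    push_cast
    simpa using h
  obtain ⟨e, rfl⟩ : ∃ e, d = e + 1 := ⟨d - 1, by omega⟩
  rw [Finset.sum_range_succ'] at h2
  have h3 : y * (y ^ e + ∑ i ∈ Finset.range e, ((P.getD (i + 1) 0 : ℤ) : 𝓞 K) * y ^ i) =
      -((P.getD 0 0 : ℤ) : 𝓞 K) := by
    rw [mul_add, Finset.mul_sum]
    have : ∑ i ∈ Finset.range e, y * (((P.getD (i + 1) 0 : ℤ) : 𝓞 K) * y ^ i) =
        ∑ i ∈ Finset.range e, ((P.getD (i + 1) 0 : ℤ) : 𝓞 K) * y ^ (i + 1) :=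
      Finset.sum_congr rfl fun i _ => by ring
    rw [this]
    linear_combination h2
  have h4 : IsUnit (-((P.getD 0 0 : ℤ) : 𝓞 K)) := by
    rcases Int.natAbs_eq (P.getD 0 0) with h5 | h5 <;> rw [h5, hP0] <;> simp
  rw [← h3] at h4
  obtain ⟨u, hu⟩ := isUnit_of_mul_isUnit_left h4
  exact ⟨u, by rw [hu, hy]⟩


theorem rt_rel : (rt c) ^ c.length + ∑ i ∈ Finset.range c.length,
    ((c.getD i 0 : ℤ) : fieldOf c) * (rt c) ^ i = 0 :=
  root_rel (rt c) ((aeval_int _ _).trans ((aeval_int _ _).symm.trans (aeval_rt c)))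

theorem valL_eq_zero_of_all (a : List ℤ) (h : ∀ x ∈ a, x = 0) (d : ℕ) :
    valL (rt c) d a = 0 := by
  unfold valL
  refine Finset.sum_eq_zero fun i _ => ?_
  have : a.getD i 0 = 0 := by
    by_cases hi : i < a.length
    · rw [List.getD_eq_getElem _ _ hi]
      exact h _ (List.getElem_mem hi)
    · rw [List.getD_eq_default _ _ (by omega)]
  rw [this]; simp

/-- soundness -/
theorem algo_sound (n : ℕ) (h : n ∈ algo c) : n ∈ NSet (fieldOf c) := by
  unfold algo at h
  rw [List.mem_filter, Bool.and_eq_true, decide_eq_true_eq] at h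
  obtain ⟨-, h1, h2⟩ := h
  unfold testL at h2
  simp only [List.any_eq_true, Bool.and_eq_true, beq_iff_eq, List.all_eq_true] at h2
  obtain ⟨g, hg, P, hP, Q, hQ, ⟨⟨hP0, hQ0⟩, hz1⟩, hz2⟩ := h2
  rw [mem_boxes] at hg hP hQ
  have hc := length_pos' c
  have hf' := deriv_ne_zero c
  have e1 := valL_homL (rt c) c hc (rt_rel c) g (derivL c) P hg.1 (by simp [derivL]) hP.1
  have e2 := valL_homL (rt c) c hc (rt_rel c)
    (addL c.length (smulL c.length n (derivL c)) (smulL c.length (-1) g))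
    (derivL c) Q (by simp [addL]) (by simp [derivL]) hQ.1
  rw [valL_eq_zero_of_all c _ hz1] at e1
  rw [valL_eq_zero_of_all c _ hz2] at e2
  rw [valL_addL, valL_smulL, valL_smulL] at e2
  rw [valL_derivL_rt] at e1 e2
  set D := aeval (rt c) (derivative (polyOf c)) with hD
  set y := valL (rt c) c.length g with hy
  have key : ∀ (z : fieldOf c) (R : List ℤ),
      0 = z ^ c.length + ∑ k ∈ Finset.range c.length, ((R.getD k 0 : ℤ) : fieldOf c) * z ^ k *
        D ^ (c.length - k) →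
      (z / D) ^ c.length + ∑ i ∈ Finset.range c.length,
        ((R.getD i 0 : ℤ) : fieldOf c) * (z / D) ^ i = 0 := by
    intro z R hz
    have h3 : (z / D) ^ c.length + ∑ i ∈ Finset.range c.length,
        ((R.getD i 0 : ℤ) : fieldOf c) * (z / D) ^ i =
        (z ^ c.length + ∑ k ∈ Finset.range c.length, ((R.getD k 0 : ℤ) : fieldOf c) * z ^ k *
        D ^ (c.length - k)) / D ^ c.length := by
      rw [add_div, div_pow, Finset.sum_div]
      congr 1
      refine Finset.sum_congr rfl fun k hk => ?_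
      have hk' := Finset.mem_range.1 hk
      have h4 : D ^ c.length = D ^ k * D ^ (c.length - k) := by
        rw [← pow_add]; congr 1; omega
      rw [h4, div_pow]
      field_simp
    rw [h3, ← hz, zero_div]
  obtain ⟨u, hu⟩ := unit_of_rel (y / D) c.length hc P hP0 (key y P e1)
  obtain ⟨w, hw⟩ := unit_of_rel ((((n : ℤ) : fieldOf c) * D + ((-1 : ℤ) : fieldOf c) * y) / D)
    c.length hc Q hQ0 (key _ Q e2)
  refine ⟨h1, u, w, ?_⟩
  rw [hu, hw]
  field_simp
  push_cast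
  ring

/-- completeness -/
theorem algo_complete (ε δ : (𝓞 (fieldOf c))ˣ) (n : ℕ) (hn : 1 ≤ n)
    (h : ((ε : 𝓞 (fieldOf c)) : fieldOf c) + ((δ : 𝓞 (fieldOf c)) : fieldOf c) = (n : fieldOf c))
    (hε : ∀ σ : fieldOf c →+* ℂ, ‖σ ((ε : 𝓞 (fieldOf c)) : fieldOf c)‖ ≤ TL c)
    (hδ : ∀ σ : fieldOf c →+* ℂ, ‖σ ((δ : 𝓞 (fieldOf c)) : fieldOf c)‖ ≤ TL c) :
    n ∈ algo c := by
  have hc := length_pos' c
  have hT1 : 1 ≤ TL c := Nat.one_le_iff_ne_zero.2 (by unfold TL; positivity)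
  have hn2 : n ≤ 2 * TL c := by
    obtain ⟨σ⟩ : Nonempty (fieldOf c →+* ℂ) := inferInstance
    have h1 : ‖σ ((n : ℕ) : fieldOf c)‖ ≤ TL c + TL c := by
      rw [← h, map_add]
      exact le_trans (norm_add_le _ _) (add_le_add (hε σ) (hδ σ))
    rw [map_natCast, Complex.norm_natCast] at h1
    have : (n : ℝ) ≤ ((2 * TL c : ℕ) : ℝ) := by push_cast; linarith
    exact_mod_cast this
  unfold algo
  rw [List.mem_filter, Bool.and_eq_true, decide_eq_true_eq]
  refine ⟨List.mem_range.2 (by omega), hn, ?_⟩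
  obtain ⟨g, hg1, hg2, hg3⟩ := exists_coords c (ε : 𝓞 (fieldOf c)) (TL c) hε
  obtain ⟨P, hP1, hP2, hP3, hP4⟩ := exists_charpoly c ε (TL c) hT1 hε
  obtain ⟨Q, hQ1, hQ2, hQ3, hQ4⟩ := exists_charpoly c δ (TL c) hT1 hδ
  unfold testL
  simp only [List.any_eq_true, Bool.and_eq_true, beq_iff_eq, List.all_eq_true]
  refine ⟨g, (mem_boxes _ _ _).2 ⟨hg1, hg2⟩, P, (mem_boxes _ _ _).2 ⟨hP1, hP2⟩, Q,
    (mem_boxes _ _ _).2 ⟨hQ1, hQ2⟩, ⟨⟨hP3, hQ3⟩, ?_⟩, ?_⟩
  all_goals have hD : valL (rt c) c.length (derivL c) = _ := valL_derivL_rt c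
  all_goals set D := aeval (rt c) (derivative (polyOf c)) with hDd
  · apply valL_rt_eq_zero c _ (homL_length c _ _ _ hc (by
      intro h0; rw [h0] at hP1; simp at hP1; omega))
    rw [valL_homL (rt c) c hc (rt_rel c) g (derivL c) P hg1 (by simp [derivL]) hP1]
    have e1 : valL (rt c) c.length g = D * ((ε : 𝓞 (fieldOf c)) : fieldOf c) := hg3
    rw [e1, hD]
    have : (D * ((ε : 𝓞 (fieldOf c)) : fieldOf c)) ^ c.length +
        ∑ k ∈ Finset.range c.length, ((P.getD k 0 : ℤ) : fieldOf c) *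
          (D * ((ε : 𝓞 (fieldOf c)) : fieldOf c)) ^ k * D ^ (c.length - k) =
        D ^ c.length * (((ε : 𝓞 (fieldOf c)) : fieldOf c) ^ c.length +
          ∑ k ∈ Finset.range c.length, ((P.getD k 0 : ℤ) : fieldOf c) *
            ((ε : 𝓞 (fieldOf c)) : fieldOf c) ^ k) := by
      rw [mul_add, mul_pow, Finset.mul_sum]
      congr 1
      refine Finset.sum_congr rfl fun k hk => ?_
      have hk' := Finset.mem_range.1 hk
      have h4 : D ^ c.length = D ^ k * D ^ (c.length - k) := by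
        rw [← pow_add]; congr 1; omega
      rw [h4]; ring
    rw [this, hP4, mul_zero]
  · apply valL_rt_eq_zero c _ (homL_length c _ _ _ hc (by
      intro h0; rw [h0] at hQ1; simp at hQ1; omega))
    rw [valL_homL (rt c) c hc (rt_rel c) _ (derivL c) Q (by simp [addL]) (by simp [derivL]) hQ1]
    have e1 : valL (rt c) c.length
        (addL c.length (smulL c.length n (derivL c)) (smulL c.length (-1) g)) =
        D * ((δ : 𝓞 (fieldOf c)) : fieldOf c) := by
      rw [valL_addL, valL_smulL, valL_smulL, hD]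
      have e2 : valL (rt c) c.length g = D * ((ε : 𝓞 (fieldOf c)) : fieldOf c) := hg3
      rw [e2]
      push_cast
      linear_combination (-D) * h
    rw [e1, hD]
    have : (D * ((δ : 𝓞 (fieldOf c)) : fieldOf c)) ^ c.length +
        ∑ k ∈ Finset.range c.length, ((Q.getD k 0 : ℤ) : fieldOf c) *
          (D * ((δ : 𝓞 (fieldOf c)) : fieldOf c)) ^ k * D ^ (c.length - k) =
        D ^ c.length * (((δ : 𝓞 (fieldOf c)) : fieldOf c) ^ c.length +
          ∑ k ∈ Finset.range c.length, ((Q.getD k 0 : ℤ) : fieldOf c) *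
            ((δ : 𝓞 (fieldOf c)) : fieldOf c) ^ k) := by
      rw [mul_add, mul_pow, Finset.mul_sum]
      congr 1
      refine Finset.sum_congr rfl fun k hk => ?_
      have hk' := Finset.mem_range.1 hk
      have h4 : D ^ c.length = D ^ k * D ^ (c.length - k) := by
        rw [← pow_add]; congr 1; omega
      rw [h4]; ring
    rw [this, hQ4, mul_zero]

end concrete

/-- main theorem -/
theorem main_thm :
    ∃ F : List ℤ → List ℕ, Primrec F ∧
      ∀ (c : List ℤ) [Fact (Irreducible ((polyOf c).map (Int.castRingHom ℚ)))],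
        (∀ n ∈ F c, n ∈ NSet (fieldOf c)) ∧
        (∀ (ε δ : (𝓞 (fieldOf c))ˣ) (n : ℕ), 1 ≤ n →
          ((ε : 𝓞 (fieldOf c)) : fieldOf c) + ((δ : 𝓞 (fieldOf c)) : fieldOf c) =
            (n : fieldOf c) → n ∉ F c →
          Special ((ε : 𝓞 (fieldOf c)) : fieldOf c) ((δ : 𝓞 (fieldOf c)) : fieldOf c)) ∧
        ((NSet (fieldOf c)).Finite → NoBadSubfield (fieldOf c) →
          ∀ n, n ∈ F c ↔ n ∈ NSet (fieldOf c)) := by
  refine ⟨algo, algo_primrec, ?_⟩
  intro c _
  have h2 : ∀ (ε δ : (𝓞 (fieldOf c))ˣ) (n : ℕ), 1 ≤ n →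
      ((ε : 𝓞 (fieldOf c)) : fieldOf c) + ((δ : 𝓞 (fieldOf c)) : fieldOf c) =
        (n : fieldOf c) → n ∉ algo c →
      Special ((ε : 𝓞 (fieldOf c)) : fieldOf c) ((δ : 𝓞 (fieldOf c)) : fieldOf c) := by
    intro ε δ n hn h hnot
    obtain ⟨P, -⟩ := exists_prim c
    rcases bounded_or_special P ε δ n hn h with h1 | h1
    · exfalso
      apply hnot
      rw [finrank_fieldOf] at h1
      exact algo_complete c ε δ n hn h (fun σ => norm_le_of_log (h1 σ).1)
        (fun σ => norm_le_of_log (h1 σ).2)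
    · exact h1
  refine ⟨fun n hn => algo_sound c n hn, h2, fun hfin hbad n => ⟨algo_sound c n, ?_⟩⟩
  rintro ⟨hn, ε, δ, h⟩
  by_contra hnot
  exact not_special hfin hbad _ _ (h2 ε δ n hn h hnot)

end Pool.Agent.Helper13.TU
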